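import Mathlib
import Pool.Agent.H71.Boom

namespace Pool.Agent.Results.MP_d9b86d_al.NoIRS

open MeasureTheory Filter Topology

/-- The space `Sub(Γ)` of all subgroups of `Γ`. -/
def Sub (Γ : Type) [Group Γ] : Type := Subgroup Γ

/-- The underlying subgroup. -/
def Sub.grp {Γ : Type} [Group Γ] (H : Sub Γ) : Subgroup Γ := H

open Classical in
/-- The indicator function of a subgroup, a point of `{0,1}^Γ`. -/
noncomputable def Sub.ind {Γ : Type} [Group Γ] (H : Sub Γ) : Γ → Bool := fun g => decide (g ∈ H.grp)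

/-- The topology of `Sub(Γ)` as a subspace of `{0,1}^Γ` with the product topology. -/
noncomputable instance (Γ : Type) [Group Γ] : TopologicalSpace (Sub Γ) :=
  TopologicalSpace.induced Sub.ind inferInstance

/-- The Borel sigma-algebra of `Sub(Γ)`. -/
noncomputable instance (Γ : Type) [Group Γ] : MeasurableSpace (Sub Γ) := borel (Sub Γ)

/-- The conjugate `γ H γ⁻¹`. -/
def conj {Γ : Type} [Group Γ] (γ : Γ) (H : Sub Γ) : Sub Γ :=
  Subgroup.map (MulAut.conj γ).toMonoidHom H.grp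

/-- Boomerang subgroups. -/
def IsBoomerang {Γ : Type} [Group Γ] (Δ : Sub Γ) : Prop :=
  ∀ γ : Γ, ∃ n : ℕ → ℕ, Tendsto n atTop atTop ∧
    Tendsto (fun k => conj (γ ^ n k) Δ) atTop (𝓝 Δ)

/-- Invariant random subgroups: conjugation invariant Borel probability measures. -/
def IsIRS {Γ : Type} [Group Γ] (μ : Measure (Sub Γ)) : Prop :=
  IsProbabilityMeasure μ ∧ ∀ (γ : Γ) (s : Set (Sub Γ)), MeasurableSet s → μ (conj γ ⁻¹' s) = μ s

/-- The orbit closure of `Δ`. -/
def orbitClosure {Γ : Type} [Group Γ] (Δ : Sub Γ) : Set (Sub Γ) :=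
  closure (Set.range fun γ : Γ => conj γ Δ)

open Pool.Agent.H71.Boom

lemma mem_conj {Γ : Type} [Group Γ] (γ g : Γ) (H : Sub Γ) :
    g ∈ (conj γ H).grp ↔ γ⁻¹ * g * γ ∈ H.grp := by
  constructor
  · rintro ⟨h, hh, rfl⟩
    simpa [mul_assoc] using hh
  · intro h
    exact ⟨_, h, by simp [mul_assoc]⟩

noncomputable def chi {Γ : Type} [Group Γ] (g : Γ) (H : Sub Γ) : ENNReal :=
  if H.ind g = true then 1 else 0

lemma chi_cont {Γ : Type} [Group Γ] (g : Γ) : Continuous (chi g : Sub Γ → ENNReal) := by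
  have h1 : Continuous (fun H : Sub Γ => H.ind g) :=
    (continuous_apply g).comp (continuous_induced_dom (f := Sub.ind))
  exact (continuous_of_discreteTopology (f := fun b : Bool => if b = true then (1 : ENNReal) else 0)).comp h1

lemma chi_eq {Γ : Type} [Group Γ] (g : Γ) :
    (chi g : Sub Γ → ENNReal) = Set.indicator {H | g ∈ H.grp} 1 := by
  funext H
  by_cases h : g ∈ H.grp <;> simp [chi, Sub.ind, h]

lemma meas_mem {Γ : Type} [Group Γ] (g : Γ) : MeasurableSet {H : Sub Γ | g ∈ H.grp} := by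
  have h1 : Continuous (fun H : Sub Γ => H.ind g) :=
    (continuous_apply g).comp (continuous_induced_dom (f := Sub.ind))
  have : {H : Sub Γ | g ∈ H.grp} = (fun H : Sub Γ => H.ind g) ⁻¹' {true} := by
    ext H; simp [Sub.ind]
  rw [this]
  exact MeasurableSpace.measurableSet_generateFrom ((isOpen_discrete _).preimage h1)

lemma int_chi {Γ : Type} [Group Γ] {μ : Measure (Sub Γ)} (h : IsIRS μ) (γ g : Γ) :
    ∫⁻ H, chi (γ⁻¹ * g * γ) H ∂μ = μ {H | g ∈ H.grp} := by
  rw [chi_eq, lintegral_indicator_one (meas_mem _), ← h.2 γ _ (meas_mem g)]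
  congr 1
  ext H
  simp [mem_conj]

lemma no_irs {Γ : Type} [Group Γ] (Δ : Sub Γ) (x : Γ) (a b : I → Γ)
    (h : ∀ γ, ∑ t, chi ((a t)⁻¹ * x * a t) (conj γ Δ) + 1 ≤ ∑ t, chi ((b t)⁻¹ * x * b t) (conj γ Δ)) :
    ¬ ∃ μ : Measure (Sub Γ), IsIRS μ ∧ μ (orbitClosure Δ) = 1 := by
  rintro ⟨μ, hμ, h1⟩
  have : BorelSpace (Sub Γ) := ⟨rfl⟩
  have := hμ.1
  have hcl : IsClosed {H : Sub Γ | ∑ t, chi ((a t)⁻¹ * x * a t) H + 1 ≤
      ∑ t, chi ((b t)⁻¹ * x * b t) H} :=
    isClosed_le ((continuous_finsetSum _ fun t _ => chi_cont _).add continuous_const)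
      (continuous_finsetSum _ fun t _ => chi_cont _)
  have hsub : orbitClosure Δ ⊆ _ := closure_minimal (by rintro _ ⟨γ, rfl⟩; exact h γ) hcl
  have hae : ∀ᵐ H ∂μ, H ∈ orbitClosure Δ := by
    rw [ae_iff]
    exact (prob_compl_eq_zero_iff isClosed_closure.measurableSet).2 h1
  have := lintegral_mono_ae (μ := μ) (hae.mono fun H hH => hsub hH)
  rw [lintegral_add_right _ measurable_const,
    lintegral_finsetSum _ (fun t _ => (chi_cont _).measurable),
    lintegral_finsetSum _ (fun t _ => (chi_cont _).measurable)] at this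
  simp only [int_chi hμ, lintegral_const, measure_univ, mul_one] at this
  have hfin : ∑ _t : I, μ {H | x ∈ H.grp} ≠ ⊤ := ENNReal.sum_ne_top.2 fun _ _ => measure_ne_top _ _
  exact absurd this (not_le.2 (ENNReal.lt_add_right hfin one_ne_zero))

def Q (s : I → Equiv.Perm ℕ) (π : Equiv.Perm (ℕ × I)) (c : I) : Prop :=
  ∃ g : I → FreeGroup I, ∀ v j, π (v, j) = (FreeGroup.lift s (g j) v, j + c)

lemma Q.mul {s π π' c c'} (h : Q s π c) (h' : Q s π' c') : Q s (π * π') (c' + c) := by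
  obtain ⟨g, hg⟩ := h
  obtain ⟨g', hg'⟩ := h'
  refine ⟨fun j => g (j + c') * g' j, fun v j => ?_⟩
  rw [Equiv.Perm.mul_apply, hg', hg]
  simp [add_assoc]

lemma Q.inv {s π c} (h : Q s π c) : Q s π⁻¹ (-c) := by
  obtain ⟨g, hg⟩ := h
  refine ⟨fun j => (g (j + -c))⁻¹, fun v j => ?_⟩
  rw [Equiv.Perm.inv_eq_iff_eq, hg]
  simp

lemma Q.one (s) : Q s 1 0 := ⟨fun _ => 1, fun v j => by simp⟩

lemma Q.pow {s π c} (h : Q s π c) (n : ℕ) : Q s (π ^ n) (n * c) := by
  induction n with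
  | zero => simpa using Q.one s
  | succ n ih =>
    have := ih.mul h
    rw [← pow_succ] at this
    convert this using 1
    push_cast; ring

def pX (s : I → Equiv.Perm ℕ) : Equiv.Perm (ℕ × I) where
  toFun p := (s p.2 p.1, p.2)
  invFun p := ((s p.2)⁻¹ p.1, p.2)
  left_inv p := by simp
  right_inv p := by simp

def pY : Equiv.Perm (ℕ × I) where
  toFun p := (p.1, p.2 + 1)
  invFun p := (p.1, p.2 - 1)
  left_inv p := by simp
  right_inv p := by simp

lemma pY_pow (n : ℕ) (p : ℕ × I) : (pY ^ n) p = (p.1, p.2 + n) := by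
  induction n with
  | zero => simp
  | succ n ih =>
    rw [pow_succ', Equiv.Perm.mul_apply, ih]
    simp [pY, add_assoc]

theorem result (α : Type) [Countable α] [Nontrivial α] :
    ∃ Δ : Sub (FreeGroup α), Infinite Δ.grp ∧ IsBoomerang Δ ∧
      ¬ ∃ μ : Measure (Sub (FreeGroup α)), IsIRS μ ∧ μ (orbitClosure Δ) = 1 := by
  classical
  obtain ⟨x, y, hxy⟩ := exists_pair_ne α
  obtain ⟨s, h1, h2, h3⟩ := exists_action
  let ρ : FreeGroup α →* Equiv.Perm (ℕ × I) :=
    FreeGroup.lift fun a => if a = x then pX s else if a = y then pY else 1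
  have ρx : ρ (FreeGroup.of x) = pX s := by simp [ρ]
  have ρy : ρ (FreeGroup.of y) = pY := by simp [ρ, hxy.symm]
  let Δ : Sub (FreeGroup α) := (MulAction.stabilizer (Equiv.Perm (ℕ × I)) ((0, 0) : ℕ × I)).comap ρ
  have memΔ : ∀ g, g ∈ Δ.grp ↔ ρ g (0, 0) = (0, 0) := fun g => Iff.rfl
  have hQ : ∀ γ, ∃ c, Q s (ρ γ) c := by
    intro γ
    induction γ using FreeGroup.induction_on with
    | C1 => exact ⟨0, by rw [map_one]; exact Q.one s⟩
    | of a =>
      by_cases ha : a = x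
      · subst ha
        exact ⟨0, by rw [ρx]; exact ⟨fun j => FreeGroup.of j, fun v j => by simp [pX]⟩⟩
      by_cases hb : a = y
      · subst hb
        exact ⟨1, by rw [ρy]; exact ⟨fun j => 1, fun v j => by simp [pY]⟩⟩
      · exact ⟨0, by simpa [ρ, ha, hb] using Q.one s⟩
    | inv_of a ih =>
      obtain ⟨c, hc⟩ := ih
      exact ⟨-c, by rw [map_inv]; exact hc.inv⟩
    | mul a b iha ihb =>
      obtain ⟨c, hc⟩ := iha
      obtain ⟨c', hc'⟩ := ihb
      exact ⟨_, by rw [map_mul]; exact hc.mul hc'⟩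
  have hpow : ∀ γ, ∃ n, 0 < n ∧ γ ^ n ∈ Δ.grp := by
    intro γ
    obtain ⟨c, hc⟩ := hQ γ
    obtain ⟨g, hg⟩ := hc.pow 6
    have z : ((6 : ℕ) : I) * c = 0 := by rw [ZMod.natCast_self, zero_mul]
    rw [z] at hg
    obtain ⟨q, hq, hv⟩ := h3 (g 0) 0
    refine ⟨6 * q, by omega, ?_⟩
    have : ∀ k v, ((ρ γ ^ 6) ^ k) (v, 0) = ((FreeGroup.lift s (g 0) ^ k) v, 0) := by
      intro k
      induction k with
      | zero => intro v; rfl
      | succ k ih =>
        intro v
        rw [pow_succ, Equiv.Perm.mul_apply, hg, add_zero, ih, pow_succ, Equiv.Perm.mul_apply]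
    rw [memΔ, map_pow, pow_mul, this, hv]
  refine ⟨Δ, ?_, ?_, ?_⟩
  · obtain ⟨n, hn, hy⟩ := hpow (FreeGroup.of y)
    refine Infinite.of_injective (fun k : ℕ => (⟨(FreeGroup.of y ^ n) ^ k, pow_mem hy k⟩ : Δ.grp)) ?_
    intro a b hab
    have := congrArg (fun z : Δ.grp =>
      FreeGroup.lift (fun _ : α => Multiplicative.ofAdd (1 : ℤ)) z.1) hab
    simp only [map_pow, FreeGroup.lift_apply_of, ← pow_mul, ← ofAdd_nsmul,
      EmbeddingLike.apply_eq_iff_eq, nsmul_eq_mul, mul_one, Nat.cast_inj] at this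
    exact Nat.eq_of_mul_eq_mul_left hn this
  · intro γ
    obtain ⟨n, hn, hγ⟩ := hpow γ
    refine ⟨fun k => n * k, tendsto_id.const_mul_atTop' hn, ?_⟩
    have : ∀ k, conj (γ ^ (n * k)) Δ = Δ := by
      intro k
      apply Subgroup.ext
      intro g
      have hm : γ ^ (n * k) ∈ Δ.grp := by rw [pow_mul]; exact pow_mem hγ k
      refine (mem_conj _ g Δ).trans ?_
      rw [Subgroup.mul_mem_cancel_right _ hm, Subgroup.mul_mem_cancel_left _ (inv_mem hm)]
      rfl
    simp only [this]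
    exact tendsto_const_nhds
  · refine no_irs Δ (FreeGroup.of x) (fun t => FreeGroup.of y ^ t.val)
      (fun t => FreeGroup.of y * FreeGroup.of x * FreeGroup.of y ^ t.val) fun γ => ?_
    have key : ∀ a : FreeGroup α, chi (a⁻¹ * FreeGroup.of x * a) (conj γ Δ) =
        if pX s (ρ a (ρ γ (0, 0))) = ρ a (ρ γ (0, 0)) then 1 else 0 := by
      intro a
      have : a⁻¹ * FreeGroup.of x * a ∈ (conj γ Δ).grp ↔
          pX s (ρ a (ρ γ (0, 0))) = ρ a (ρ γ (0, 0)) := by
        rw [mem_conj, memΔ]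
        simp only [map_mul, map_inv, ρx, Equiv.Perm.mul_apply, Equiv.Perm.inv_eq_iff_eq]
      simp only [chi, Sub.ind, decide_eq_true_eq, this]
    simp only [key, map_mul, map_pow, ρx, ρy, Equiv.Perm.mul_apply, pY_pow]
    generalize ρ γ (0, 0) = p
    obtain ⟨v, j⟩ := p
    simp only [ZMod.natCast_val, ZMod.cast_id', id_eq, pX, pY, Equiv.coe_fn_mk, Prod.mk.injEq,
      and_true]
    have e1 : (∑ t : I, if s (j + t) v = v then (1 : ENNReal) else 0) ≤ 1 := by
      rw [Finset.sum_boole]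
      norm_cast
      rw [Finset.card_le_one]
      intro a ha b hb
      simp only [Finset.mem_filter, Finset.mem_univ, true_and] at ha hb
      exact add_left_cancel (h1 v _ _ ha hb)
    have e2 : (2 : ENNReal) ≤ ∑ t : I,
        if s (j + t + 1) (s (j + t) v) = s (j + t) v then (1 : ENNReal) else 0 := by
      rw [Finset.sum_boole]
      norm_cast
      obtain ⟨a, b, hab, ha, hb⟩ := h2 v
      refine Finset.one_lt_card.2 ⟨a - j, ?_, b - j, ?_, fun h => hab (sub_left_injective h)⟩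
      · simpa using ha
      · simpa using hb
    calc _ ≤ (1 : ENNReal) + 1 := add_le_add e1 le_rfl
      _ = 2 := one_add_one_eq_two
      _ ≤ _ := e2

end Pool.Agent.Results.MP_d9b86d_al.NoIRS
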